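import Pool.Agent.Helper6.EC_B.Goals

/-! # Packet KG of MP_ecc237_nt, Part B: Gaussian superposition for `K` -/

open MeasureTheory Filter Topology Set

noncomputable section

namespace EC237.PB.PkKG

theorem sq_le_cosh (u : ℝ) : u ^ 2 / 4 ≤ Real.cosh u := by
  have h1 : Real.exp |u| ≤ 2 * Real.cosh u := by
    rw [← Real.cosh_abs, Real.cosh_eq]
    have := (Real.exp_pos (-|u|)).le
    linarith
  have h2 := Real.quadratic_le_exp_of_nonneg (abs_nonneg u)
  rw [sq_abs] at h2
  have := abs_nonneg u
  linarith

theorem integrable_cosh {x : ℝ} (hx : 0 < x) :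
    Integrable (fun u : ℝ => Real.exp (-(x * Real.cosh u))) := by
  have h1 : Integrable (fun u : ℝ => Real.exp (-(x / 4) * u ^ 2)) :=
    integrable_exp_neg_mul_sq (by positivity)
  refine h1.mono' (by fun_prop) (Eventually.of_forall fun u => ?_)
  rw [Real.norm_eq_abs, abs_of_pos (Real.exp_pos _), Real.exp_le_exp]
  have := mul_le_mul_of_nonneg_left (sq_le_cosh u) hx.le
  linarith

theorem image_exp {a : ℝ} (ha : 0 < a) : (fun u : ℝ => a * Real.exp u) '' univ = Ioi 0 := by
  ext y
  rw [image_univ, mem_range, mem_Ioi]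
  constructor
  · rintro ⟨u, rfl⟩
    exact mul_pos ha (Real.exp_pos u)
  · intro hy
    refine ⟨Real.log (y / a), ?_⟩
    rw [Real.exp_log (div_pos hy ha)]
    field_simp

theorem thm : G_KG := by
  intro c t hc ht
  have ha : 0 < t / (2 * c) := by positivity
  have hder : ∀ u ∈ (univ : Set ℝ), HasDerivWithinAt (fun u : ℝ => t / (2 * c) * Real.exp u)
      (t / (2 * c) * Real.exp u) univ u := fun u _ =>
    ((Real.hasDerivAt_exp u).const_mul _).hasDerivWithinAt
  have hinj : InjOn (fun u : ℝ => t / (2 * c) * Real.exp u) univ := by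
    intro u _ v _ h
    exact Real.exp_injective (mul_left_cancel₀ ha.ne' h)
  have key : ∀ u : ℝ, |t / (2 * c) * Real.exp u| •
      (Real.exp (-(c ^ 2 * (t / (2 * c) * Real.exp u) +
        t ^ 2 / (4 * (t / (2 * c) * Real.exp u)))) / (2 * (t / (2 * c) * Real.exp u))) =
      1 / 2 * Real.exp (-(c * t * Real.cosh u)) := by
    intro u
    have he := Real.exp_pos u
    have h1 : c ^ 2 * (t / (2 * c) * Real.exp u) + t ^ 2 / (4 * (t / (2 * c) * Real.exp u)) =
        c * t * Real.cosh u := by
      rw [Real.cosh_eq, Real.exp_neg]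
      field_simp
      ring
    rw [h1, abs_of_pos (mul_pos ha he), smul_eq_mul]
    field_simp
  have hint : Integrable (fun u : ℝ => 1 / 2 * Real.exp (-(c * t * Real.cosh u))) :=
    (integrable_cosh (mul_pos hc ht)).const_mul _
  constructor
  · rw [← image_exp ha, integrableOn_image_iff_integrableOn_abs_deriv_smul MeasurableSet.univ
      hder hinj]
    simp only [key]
    exact hint.integrableOn
  · rw [← image_exp ha, integral_image_eq_integral_abs_deriv_smul MeasurableSet.univ hder hinj]
    simp only [key]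
    rw [setIntegral_univ, integral_const_mul]
    have h2 : ∀ u : ℝ, Real.exp (-(c * t * Real.cosh u)) =
        (fun v : ℝ => Real.exp (-(c * t * Real.cosh v))) |u| := by
      intro u
      show _ = Real.exp (-(c * t * Real.cosh |u|))
      rw [Real.cosh_abs]
    rw [integral_congr_ae (Eventually.of_forall h2),
      integral_comp_abs (f := fun v : ℝ => Real.exp (-(c * t * Real.cosh v)))]
    show 1 / 2 * (2 * ∫ u in Ioi (0:ℝ), Real.exp (-(c * t * Real.cosh u))) = Kb (c * t)
    unfold Kb
    ring

end EC237.PB.PkKG
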